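import Pool.Agent.W387.Q.AreaLaw
import Pool.Agent.W387.Q.Ex3

/-!
Area law of square-lattice self-avoiding polygons: the laws of `A_n / E[A_n]` and
`A_{n+1} / E[A_{n+1}]` are at bounded-Lipschitz distance at most `K ((log n)^3 / n)^(1/2)`;
convergence in distribution along sparse sequences implies convergence in distribution.
-/

open Filter Topology MeasureTheory

namespace Pool.Agent.Results.MP_f6626d_co.AreaLawsMergeLogThree

/-- a closed nearest-neighbour loop on `ℤ²` with `m` steps, rooted at the origin and oriented,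
that visits no vertex twice -/
def IsLoop (m : ℕ) (f : ZMod m → ℤ × ℤ) : Prop :=
  f 0 = 0 ∧ Function.Injective f ∧
    ∀ i : ZMod m, |(f (i + 1)).1 - (f i).1| + |(f (i + 1)).2 - (f i).2| = 1

/-- the edge from `f k` to `f (k+1)` is horizontal, joins the columns `x = a` and `x = a + 1`, and
has height larger than `b`: it lies above the unit cell `[a, a+1] × [b, b+1]` -/
def Above (m : ℕ) (f : ZMod m → ℤ × ℤ) (a b : ℤ) (k : ZMod m) : Prop :=
  (((f k).1 = a ∧ (f (k + 1)).1 = a + 1) ∨ ((f k).1 = a + 1 ∧ (f (k + 1)).1 = a)) ∧ b < (f k).2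

/-- the unit cell `[a, a+1] × [b, b+1]` is enclosed by the loop: the vertical ray from the cell
upwards crosses an odd number of edges -/
def Encl (m : ℕ) (f : ZMod m → ℤ × ℤ) (c : ℤ × ℤ) : Prop :=
  Odd (Nat.card {k : ZMod m // Above m f c.1 c.2 k})

/-- the area: the number of unit cells enclosed by the loop -/
noncomputable def area (m : ℕ) (f : ZMod m → ℤ × ℤ) : ℕ := Nat.card {c : ℤ × ℤ // Encl m f c}

/-- expectation under the uniform law on the (rooted, oriented) self-avoiding polygons of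
perimeter `2 n` -/
noncomputable def E (n : ℕ) (F : (ZMod (2 * n) → ℤ × ℤ) → ℝ) : ℝ :=
  (∑ᶠ f ∈ {f : ZMod (2 * n) → ℤ × ℤ | IsLoop (2 * n) f}, F f) /
    ({f : ZMod (2 * n) → ℤ × ℤ | IsLoop (2 * n) f}.ncard : ℝ)

/-- the mean area `E[A_n]` -/
noncomputable def meanArea (n : ℕ) : ℝ := E n (fun f => (area (2 * n) f : ℝ))

/-- `E[g(A_n / E[A_n])]` -/
noncomputable def L (n : ℕ) (g : ℝ → ℝ) : ℝ := E n (fun f => g ((area (2 * n) f : ℝ) / meanArea n))

/-- **Theorem.** (1) There is `K` such that for all `n ≥ 2` and all `g : ℝ → [-1, 1]` with Lipschitz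
constant `1`, `|E[g(A_{n+1}/E[A_{n+1}])] - E[g(A_n/E[A_n])]| ≤ K ((log n)^3 / n)^(1/2)`.
(2) Let `s_k → ∞` be a sequence of integers with `(s_{k+1} - s_k) ((log s_k)^3 / s_k)^(1/2) → 0` and
`ν` a Borel probability measure on `ℝ`.  If `E[g(A_n/E[A_n])] → ∫ g dν` along `n = s_k` for all
bounded continuous `g`, then along all `n` for all bounded continuous `g`. -/
theorem result : (∃ K : ℝ, ∀ n : ℕ, 2 ≤ n → ∀ g : ℝ → ℝ, (∀ x y, |g x - g y| ≤ |x - y|) →
      (∀ x, |g x| ≤ 1) → |L (n + 1) g - L n g| ≤ K * Real.sqrt (Real.log n ^ 3 / n)) ∧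
    ∀ s : ℕ → ℕ, Tendsto s atTop atTop →
      Tendsto (fun k => ((s (k + 1) : ℝ) - s k) * Real.sqrt (Real.log (s k) ^ 3 / s k))
        atTop (𝓝 0) →
      ∀ ν : Measure ℝ, IsProbabilityMeasure ν →
      (∀ g : ℝ → ℝ, Continuous g → (∃ C, ∀ x, |g x| ≤ C) →
        Tendsto (fun k => L (s k) g) atTop (𝓝 (∫ x, g x ∂ν))) →
      ∀ g : ℝ → ℝ, Continuous g → (∃ C, ∀ x, |g x| ≤ C) →
        Tendsto (fun n => L n g) atTop (𝓝 (∫ x, g x ∂ν)) := by
  refine ⟨Pool.Agent.W387.Q.f4, fun s hs hgap ν hν h g hg hgb => ?_⟩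
  exact Pool.Agent.W387.Q.AL.weak s hs hgap ν h g hg hgb

end Pool.Agent.Results.MP_f6626d_co.AreaLawsMergeLogThree
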